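import Pool.Agent.Work.MP_3c650e_co.Final

/-!
# Perimeter and self Chebyshev radius of convex hexagons

For every convex hexagon with boundary `Γ`, `L(Γ) ≥ 12 (2 - √3) δ(Γ)`.
-/

set_option autoImplicit false

namespace Pool.Agent.Results.MP_3c650e_co.ConvexHexagonPerimeter

/-- The cross product (signed area of the spanned parallelogram) of two plane vectors. -/
noncomputable def cross (a b : EuclideanSpace ℝ (Fin 2)) : ℝ := a 0 * b 1 - a 1 * b 0

/-- `v 0, …, v 5` are the vertices, in cyclic order, of a convex hexagon all of whose interior angles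
are smaller than `π`: for each side `v i, v (i + 1)` (indices modulo `6`) the four other vertices
lie strictly on the same side of its line, which is the left side for every `i`
(counterclockwise order) or the right side for every `i` (clockwise order). -/
def IsConvexHexagon (v : Fin 6 → EuclideanSpace ℝ (Fin 2)) : Prop :=
  (∀ i j : Fin 6, j ≠ i → j ≠ i + 1 → 0 < cross (v (i + 1) - v i) (v j - v i)) ∨
  (∀ i j : Fin 6, j ≠ i → j ≠ i + 1 → cross (v (i + 1) - v i) (v j - v i) < 0)

/-- The boundary curve `Γ` of the hexagon with vertices `v 0, …, v 5`. -/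
def boundary (v : Fin 6 → EuclideanSpace ℝ (Fin 2)) : Set (EuclideanSpace ℝ (Fin 2)) :=
  frontier (convexHull ℝ (Set.range v))

/-- The perimeter: the sum of the six side lengths. -/
noncomputable def perimeter (v : Fin 6 → EuclideanSpace ℝ (Fin 2)) : ℝ :=
  ∑ i, dist (v i) (v (i + 1))

/-- The self Chebyshev radius of a set `M` of the plane: the infimum over `y ∈ M` of
`sup_{x ∈ M} |x - y|`. -/
noncomputable def selfChebyshevRadius (M : Set (EuclideanSpace ℝ (Fin 2))) : ℝ :=
  sInf ((fun y => sSup ((fun x => dist x y) '' M)) '' M)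

/-- Every convex hexagon satisfies `L(Γ) ≥ 12 (2 - √3) δ(Γ)`. -/
theorem result (v : Fin 6 → EuclideanSpace ℝ (Fin 2)) (hv : IsConvexHexagon v) :
    12 * (2 - √3) * selfChebyshevRadius (boundary v) ≤ perimeter v :=
  Pool.Agent.Hex.final v hv

end Pool.Agent.Results.MP_3c650e_co.ConvexHexagonPerimeter
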